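import Mathlib

namespace Pool.Agent.Results.MP_990fd9_pr.ParallelHitting

open ENNReal

variable {V : Type} [Fintype V] [DecidableEq V]

/-- transition probability of the simple random walk on the directed graph `adj` -/
noncomputable def step (adj : V → V → Prop) (x y : V) : ℝ≥0∞ :=
  open Classical in
  if adj x y then ((Finset.univ.filter (fun z => adj x z)).card : ℝ≥0∞)⁻¹ else 0

/-- the probability that the walk started at `u` avoids `v` at all times `0, …, t`
(sum over all trajectories avoiding `v`) -/
noncomputable def surv (adj : V → V → Prop) (v : V) (t : ℕ) (u : V) : ℝ≥0∞ :=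
  ∑ x : Fin (t + 1) → V,
    if x 0 = u ∧ ∀ i, x i ≠ v then ∏ i : Fin t, step adj (x i.castSucc) (x i.succ) else 0

/-- expected hitting time `h(u, v) = ∑ₜ P(ς(u,v) > t)` -/
noncomputable def hit (adj : V → V → Prop) (u v : V) : ℝ≥0∞ := ∑' t : ℕ, surv adj v t u

/-- expected joint hitting time of `k` independent walks,
`∑ₜ P(all of them have avoided v up to time t) = ∑ₜ ∏ᵢ P(ς(uᵢ,v) > t)` -/
noncomputable def jointHit (adj : V → V → Prop) {k : ℕ} (u : Fin k → V) (v : V) : ℝ≥0∞ :=
  ∑' t : ℕ, ∏ i, surv adj v t (u i)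

/-- `h_max` -/
noncomputable def hmax (adj : V → V → Prop) : ℝ≥0∞ := ⨆ (u : V) (v : V), hit adj u v

/-- `h^k_max` -/
noncomputable def hkmax (adj : V → V → Prop) (k : ℕ) : ℝ≥0∞ :=
  ⨆ (u : Fin k → V) (v : V), jointHit adj u v

variable (adj : V → V → Prop)

theorem surv_zero (v u : V) : surv adj v 0 u = if u ≠ v then 1 else 0 := by
  unfold surv
  rw [Finset.sum_eq_single (fun _ => u)]
  · by_cases h : u = v
    · simp [h]
    · simp [h]
  · intro x _ hx
    rw [if_neg]
    rintro ⟨h0, _⟩
    apply hx
    funext i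
    have : i = 0 := Fin.ext (by have := i.2; omega)
    rw [this, h0]
  · intro h; exact absurd (Finset.mem_univ _) h

theorem surv_succ (v : V) (t : ℕ) (u : V) :
    surv adj v (t + 1) u = if u ≠ v then ∑ w, step adj u w * surv adj v t w else 0 := by
  unfold surv
  rw [← Equiv.sum_comp (Fin.consEquiv (fun _ : Fin (t + 1 + 1) => V))]
  rw [Fintype.sum_prod_type]
  by_cases h : u = v
  · rw [if_neg (by simpa using h)]
    apply Finset.sum_eq_zero
    intro a _
    apply Finset.sum_eq_zero
    intro x _
    rw [if_neg]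
    rintro ⟨h0, h1⟩
    apply h1 0
    rw [h0, h]
  · rw [if_pos h, Finset.sum_eq_single u]
    · simp_rw [Finset.mul_sum]
      rw [Finset.sum_comm]
      refine Finset.sum_congr rfl (fun x _ => ?_)
      rw [Finset.sum_eq_single (x 0)]
      · have e1 : (((Fin.consEquiv (fun _ : Fin (t + 1 + 1) => V)) (u, x)) 0 = u ∧
            ∀ i, ((Fin.consEquiv (fun _ : Fin (t + 1 + 1) => V)) (u, x)) i ≠ v) ↔
            (x 0 = x 0 ∧ ∀ i, x i ≠ v) := by
          constructor
          · rintro ⟨_, h2⟩
            exact ⟨rfl, fun i => h2 i.succ⟩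
          · rintro ⟨_, h2⟩
            refine ⟨rfl, fun i => ?_⟩
            refine Fin.cases ?_ (fun j => ?_) i
            · exact h
            · exact h2 j
        by_cases hx : (x 0 = x 0 ∧ ∀ i, x i ≠ v)
        · rw [if_pos (e1.mpr hx), if_pos hx, Fin.prod_univ_succ]
          rfl
        · rw [if_neg (fun h => hx (e1.mp h)), if_neg hx, mul_zero]
      · intro b _ hb
        rw [if_neg, mul_zero]
        rintro ⟨h0, _⟩
        exact hb h0.symm
      · intro h; exact absurd (Finset.mem_univ _) h
    · intro b _ hb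
      apply Finset.sum_eq_zero
      intro x _
      rw [if_neg]
      rintro ⟨h0, _⟩
      exact hb h0
    · intro h; exact absurd (Finset.mem_univ _) h

theorem surv_self (v : V) (t : ℕ) : surv adj v t v = 0 := by
  cases t with
  | zero => rw [surv_zero]; simp
  | succ t => rw [surv_succ]; simp

theorem step_sum_le (u : V) : ∑ w, step adj u w ≤ 1 := by
  classical
  unfold step
  rw [← Finset.sum_filter, Finset.sum_const, nsmul_eq_mul]
  convert ENNReal.mul_inv_le_one (((Finset.univ.filter (fun z => adj u z)).card : ℝ≥0∞))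

theorem surv_le_one (v : V) (t : ℕ) (u : V) : surv adj v t u ≤ 1 := by
  induction t generalizing u with
  | zero => rw [surv_zero]; split_ifs <;> simp
  | succ t ih =>
    rw [surv_succ]
    split_ifs
    · calc ∑ w, step adj u w * surv adj v t w ≤ ∑ w, step adj u w * 1 :=
          Finset.sum_le_sum (fun w _ => mul_le_mul_right (ih w) _)
        _ ≤ 1 := by simp only [mul_one]; exact step_sum_le adj u
    · exact zero_le

theorem surv_anti_succ (v : V) (t : ℕ) (u : V) : surv adj v (t + 1) u ≤ surv adj v t u := by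
  induction t generalizing u with
  | zero =>
    rw [surv_succ, surv_zero]
    split_ifs
    · calc ∑ w, step adj u w * surv adj v 0 w ≤ ∑ w, step adj u w * 1 :=
          Finset.sum_le_sum (fun w _ => mul_le_mul_right (surv_le_one adj v 0 w) _)
        _ ≤ 1 := by simp only [mul_one]; exact step_sum_le adj u
    · exact le_rfl
  | succ t ih =>
    rw [surv_succ, surv_succ]
    split_ifs
    · exact Finset.sum_le_sum (fun w _ => mul_le_mul_right (ih w) _)
    · exact le_rfl

theorem surv_anti (v u : V) : Antitone (fun t => surv adj v t u) :=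
  antitone_nat_of_succ_le (fun t => surv_anti_succ adj v t u)

/-- the tail of the series of `hit`, compared with the survival probability -/
theorem tail_le (v : V) (H : ℝ≥0∞) (hH : ∀ w, hit adj w v ≤ H) (t : ℕ) (u : V) :
    ∑' s, surv adj v (t + s) u ≤ H * surv adj v t u := by
  induction t generalizing u with
  | zero =>
    simp only [zero_add]
    rw [surv_zero]
    by_cases h : u = v
    · subst h
      simp [surv_self]
    · rw [if_pos h, mul_one]; exact hH u
  | succ t ih =>
    have e : ∀ s, surv adj v (t + 1 + s) u =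
        if u ≠ v then ∑ w, step adj u w * surv adj v (t + s) w else 0 := by
      intro s
      rw [show t + 1 + s = t + s + 1 by ring, surv_succ]
    simp_rw [e]
    rw [surv_succ]
    by_cases h : u = v
    · simp [h]
    · simp only [ne_eq, h, not_false_eq_true, if_true]
      rw [Summable.tsum_finsetSum (fun _ _ => ENNReal.summable)]
      rw [Finset.mul_sum]
      refine Finset.sum_le_sum (fun w _ => ?_)
      rw [ENNReal.tsum_mul_left]
      calc step adj u w * ∑' s, surv adj v (t + s) w ≤ step adj u w * (H * surv adj v t w) :=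
            mul_le_mul_right (ih w) _
        _ = H * (step adj u w * surv adj v t w) := by ring

theorem step_pos {u w : V} (h : adj u w) : step adj u w ≠ 0 := by
  unfold step
  rw [if_pos h]
  exact ENNReal.inv_ne_zero.mpr (ENNReal.natCast_ne_top _)

theorem step_ne_top (u w : V) : step adj u w ≠ ∞ := by
  refine ne_top_of_le_ne_top ENNReal.one_ne_top ?_
  refine le_trans ?_ (step_sum_le adj u)
  exact Finset.single_le_sum (f := fun w => step adj u w) (fun _ _ => zero_le) (Finset.mem_univ w)

theorem exists_lt_one {v u : V} (h : Relation.ReflTransGen adj u v) :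
    ∃ t, surv adj v t u < 1 := by
  induction h using Relation.ReflTransGen.head_induction_on with
  | refl => exact ⟨0, by rw [surv_self]; exact zero_lt_one⟩
  | @head a b hab _ ih =>
    obtain ⟨t, ht⟩ := ih
    refine ⟨t + 1, ?_⟩
    rw [surv_succ]
    split_ifs
    · refine lt_of_lt_of_le ?_ (step_sum_le adj a)
      rw [← Finset.add_sum_erase _ _ (Finset.mem_univ b),
        ← Finset.add_sum_erase _ (fun w => step adj a w) (Finset.mem_univ b)]
      have h1 : step adj a b * surv adj v t b < step adj a b := by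
        have := ENNReal.mul_lt_mul_right (step_pos adj hab) (step_ne_top adj a b) ht
        rwa [mul_one] at this
      have h2 : ∑ w ∈ Finset.univ.erase b, step adj a w * surv adj v t w ≤
          ∑ w ∈ Finset.univ.erase b, step adj a w := by
        refine Finset.sum_le_sum (fun w _ => ?_)
        calc step adj a w * surv adj v t w ≤ step adj a w * 1 :=
              mul_le_mul_right (surv_le_one adj v t w) _
          _ = step adj a w := mul_one _
      refine ENNReal.add_lt_add_of_lt_of_le ?_ h1 h2
      refine ne_top_of_le_ne_top ENNReal.one_ne_top (le_trans ?_ (step_sum_le adj a))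
      refine le_trans h2 ?_
      exact Finset.sum_le_sum_of_subset (Finset.erase_subset _ _)
    · exact zero_lt_one

theorem surv_add_le (v : V) (n : ℕ) (c : ℝ≥0∞) (hc : ∀ w, surv adj v n w ≤ c) (t : ℕ) (u : V) :
    surv adj v (t + n) u ≤ c * surv adj v t u := by
  induction t generalizing u with
  | zero =>
    rw [zero_add, surv_zero]
    by_cases h : u = v
    · subst h; simp [surv_self]
    · rw [if_pos h, mul_one]; exact hc u
  | succ t ih =>
    rw [show t + 1 + n = t + n + 1 by ring, surv_succ, surv_succ]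
    split_ifs
    · rw [Finset.mul_sum]
      refine Finset.sum_le_sum (fun w _ => ?_)
      calc step adj u w * surv adj v (t + n) w ≤ step adj u w * (c * surv adj v t w) :=
            mul_le_mul_right (ih w) _
        _ = c * (step adj u w * surv adj v t w) := by ring
    · exact zero_le

theorem hit_ne_top (hconn : ∀ a b : V, Relation.ReflTransGen adj a b) (u v : V) :
    hit adj u v ≠ ∞ := by
  classical
  choose f hf using fun w => exists_lt_one adj (hconn w v)
  set n := Finset.univ.sup f with hn
  have h1 : ∀ w, surv adj v n w < 1 := fun w =>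
    lt_of_le_of_lt (surv_anti adj v w (Finset.le_sup (Finset.mem_univ w))) (hf w)
  have : Nonempty V := ⟨u⟩
  obtain ⟨w0, hw0⟩ := Finite.exists_max (fun w => surv adj v n w)
  set c := surv adj v n w0 with hc
  have hc1 : c < 1 := h1 w0
  have hadd := surv_add_le adj v n c hw0
  have key : ∀ N : ℕ, ∑ t ∈ Finset.range N, surv adj v t u ≤ n / (1 - c) := by
    intro N
    set SN := ∑ t ∈ Finset.range N, surv adj v t u with hSN
    have hfin : SN ≠ ∞ := by
      rw [hSN]
      refine ne_top_of_le_ne_top (ENNReal.natCast_ne_top N) ?_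
      calc ∑ t ∈ Finset.range N, surv adj v t u ≤ ∑ t ∈ Finset.range N, (1:ℝ≥0∞) :=
            Finset.sum_le_sum (fun t _ => surv_le_one adj v t u)
        _ = N := by simp
    have h2 : SN ≤ n + c * SN := by
      calc SN ≤ ∑ t ∈ Finset.range (n + N), surv adj v t u :=
            Finset.sum_le_sum_of_subset (Finset.range_mono (by omega))
        _ = ∑ t ∈ Finset.range n, surv adj v t u + ∑ t ∈ Finset.range N, surv adj v (n + t) u :=
            Finset.sum_range_add _ _ _
        _ ≤ n + c * SN := by
            apply add_le_add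
            · calc ∑ t ∈ Finset.range n, surv adj v t u ≤ ∑ t ∈ Finset.range n, (1:ℝ≥0∞) :=
                    Finset.sum_le_sum (fun t _ => surv_le_one adj v t u)
                _ = n := by simp
            · rw [hSN, Finset.mul_sum]
              refine Finset.sum_le_sum (fun t _ => ?_)
              rw [add_comm n t]; exact hadd t u
    have hcfin : c ≠ ∞ := ne_top_of_lt hc1
    have hsub : (1 - c) ≠ 0 := (tsub_pos_of_lt hc1).ne'
    rw [ENNReal.le_div_iff_mul_le (Or.inl hsub) (Or.inl (by
      exact ne_top_of_le_ne_top ENNReal.one_ne_top tsub_le_self))]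
    have h3 : SN * (1 - c) = SN - c * SN := by
      rw [ENNReal.mul_sub (fun _ _ => hfin), mul_one, mul_comm]
    rw [h3]
    exact tsub_le_iff_right.mpr h2
  unfold hit
  have h4 : ∑' t, surv adj v t u ≤ n / (1 - c) := by
    rw [ENNReal.tsum_eq_iSup_nat]
    exact iSup_le key
  refine ne_top_of_le_ne_top ?_ h4
  exact ENNReal.div_ne_top (ENNReal.natCast_ne_top n) (tsub_pos_of_lt hc1).ne'

/-- real-variable lemma -/
theorem real_ineq (H x y : ℝ) (hx : 0 ≤ x) (hy : 0 ≤ y) (hyx : y ≤ x) (hH : x ≤ H * (x - y))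
    (n : ℕ) : x ^ (n + 1) - y ^ (n + 1) ≤ (n + 1) * H ^ n * (x - y) ^ (n + 1) := by
  have hxy : 0 ≤ x - y := by linarith
  have h1 : x ^ (n + 1) - y ^ (n + 1) ≤ (n + 1) * x ^ n * (x - y) := by
    induction n with
    | zero => simp
    | succ n ih =>
      have h2 : y ^ (n + 1) ≤ x ^ (n + 1) := pow_le_pow_left₀ hy hyx _
      have h3 : x ^ (n + 1 + 1) - y ^ (n + 1 + 1) =
          x * (x ^ (n + 1) - y ^ (n + 1)) + y ^ (n + 1) * (x - y) := by ring
      rw [h3]
      have h4 := mul_le_mul_of_nonneg_left ih hx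
      have h5 := mul_le_mul_of_nonneg_right h2 hxy
      have h6 : ((n + 1 : ℕ) : ℝ) + 1 = n + 2 := by push_cast; ring
      rw [h6]
      have h7 : x * ((n + 1) * x ^ n * (x - y)) + x ^ (n + 1) * (x - y) =
        (n + 2) * x ^ (n + 1) * (x - y) := by ring
      linarith
  have h2 : x ^ n ≤ (H * (x - y)) ^ n := pow_le_pow_left₀ hx hH n
  have h3 : (n + 1) * x ^ n * (x - y) ≤ (n + 1) * (H * (x - y)) ^ n * (x - y) := by
    apply mul_le_mul_of_nonneg_right _ hxy
    exact mul_le_mul_of_nonneg_left h2 (by positivity)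
  have h4 : ((n:ℝ) + 1) * (H * (x - y)) ^ n * (x - y) = (n + 1) * H ^ n * (x - y) ^ (n + 1) := by
    rw [mul_pow]; ring
  linarith

/-- the series inequality -/
theorem series_ineq (p : ℕ → ℝ) (hp0 : ∀ t, 0 ≤ p t) (hp1 : ∀ t, p t ≤ 1) (hs : Summable p)
    (H : ℝ) (hH : H = ∑' t, p t) (hH0 : 0 < H) (htail : ∀ t, ∑' s, p (t + s) ≤ H * p t) (n : ℕ) :
    H ≤ (n + 1) * ∑' t, p t ^ (n + 1) := by
  set r : ℕ → ℝ := fun t => ∑' s, p (s + t) with hr
  have hr0 : ∀ t, 0 ≤ r t := fun t => tsum_nonneg (fun s => hp0 _)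
  have hrs : ∀ t, r t = p t + r (t + 1) := by
    intro t
    have h1 : Summable (fun s => p (s + t)) := (summable_nat_add_iff t).mpr hs
    rw [hr]
    show ∑' s, p (s + t) = p t + ∑' s, p (s + (t + 1))
    rw [h1.tsum_eq_zero_add]
    simp only [zero_add]
    congr 1
    refine tsum_congr (fun s => ?_)
    congr 1; ring
  have hr00 : r 0 = H := by rw [hH]; rfl
  have hrt : ∀ t, r t ≤ H * p t := by
    intro t
    refine le_trans (le_of_eq ?_) (htail t)
    refine tsum_congr (fun s => ?_)
    congr 1; ring
  have hlim : Filter.Tendsto r Filter.atTop (nhds 0) := tendsto_sum_nat_add p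
  have hps : Summable (fun t => p t ^ (n + 1)) := by
    refine Summable.of_nonneg_of_le (fun t => pow_nonneg (hp0 t) _) (fun t => ?_) hs
    rw [pow_succ]
    calc p t ^ n * p t ≤ 1 * p t :=
          mul_le_mul_of_nonneg_right (pow_le_one₀ (hp0 t) (hp1 t)) (hp0 t)
      _ = p t := one_mul _
  have hstep : ∀ t, r t ^ (n + 1) - r (t + 1) ^ (n + 1) ≤ (n + 1) * H ^ n * p t ^ (n + 1) := by
    intro t
    have h1 : r t - r (t + 1) = p t := by rw [hrs t]; ring
    have := real_ineq H (r t) (r (t + 1)) (hr0 t) (hr0 _) (by rw [hrs t]; linarith [hp0 t])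
      (by rw [h1]; exact hrt t) n
    rw [h1] at this
    exact this
  have hpart : ∀ N, H ^ (n + 1) - r N ^ (n + 1) ≤
      (n + 1) * H ^ n * ∑ t ∈ Finset.range N, p t ^ (n + 1) := by
    intro N
    induction N with
    | zero => rw [hr00]; simp
    | succ N ih =>
      rw [Finset.sum_range_succ, mul_add]
      have := hstep N
      linarith
  have hpart2 : ∀ N, H ^ (n + 1) - r N ^ (n + 1) ≤ (n + 1) * H ^ n * ∑' t, p t ^ (n + 1) := by
    intro N
    refine le_trans (hpart N) ?_
    apply mul_le_mul_of_nonneg_left _ (by positivity)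
    exact hps.sum_le_tsum _ (fun t _ => pow_nonneg (hp0 t) _)
  have hlim2 : Filter.Tendsto (fun N => H ^ (n + 1) - r N ^ (n + 1)) Filter.atTop
      (nhds (H ^ (n + 1) - 0 ^ (n + 1))) := (hlim.pow (n + 1)).const_sub _
  have hfin := le_of_tendsto' hlim2 hpart2
  rw [zero_pow (Nat.succ_ne_zero n), sub_zero, pow_succ] at hfin
  have hHn : 0 < H ^ n := pow_pos hH0 n
  have : H ^ n * H ≤ H ^ n * ((n + 1) * ∑' t, p t ^ (n + 1)) := by linarith
  exact le_of_mul_le_mul_left this hHn

/-- For every finite strongly connected (directed) graph and every `k ≥ 1`,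
`h_max ≤ k h^k_max`. -/
theorem result (V : Type) [Fintype V] [DecidableEq V] (adj : V → V → Prop)
    (hconn : ∀ a b : V, Relation.ReflTransGen adj a b) (k : ℕ) (hk : 1 ≤ k) :
    hmax adj ≤ k * hkmax adj k := by
  obtain ⟨n, rfl⟩ : ∃ n, k = n + 1 := ⟨k - 1, by omega⟩
  rcases isEmpty_or_nonempty V with hV | hV
  · unfold hmax; simp
  obtain ⟨⟨u, v⟩, huv⟩ := Finite.exists_max (fun q : V × V => hit adj q.1 q.2)
  have hmax_eq : hmax adj = hit adj u v := by
    apply le_antisymm
    · exact iSup₂_le (fun a b => huv (a, b))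
    · exact le_iSup₂ (f := fun a b => hit adj a b) u v
  rw [hmax_eq]
  have hle : jointHit adj (fun _ : Fin (n + 1) => u) v ≤ hkmax adj (n + 1) :=
    le_iSup₂ (f := fun (a : Fin (n + 1) → V) b => jointHit adj a b) (fun _ => u) v
  refine le_trans ?_ (mul_le_mul_right hle _)
  have hfin := hit_ne_top adj hconn u v
  have htop : ∀ t, surv adj v t u ≠ ∞ := fun t =>
    ne_top_of_le_ne_top ENNReal.one_ne_top (surv_le_one adj v t u)
  set p : ℕ → ℝ := fun t => (surv adj v t u).toReal with hp
  have hpt : ∀ t, surv adj v t u = ENNReal.ofReal (p t) := fun t =>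
    (ENNReal.ofReal_toReal (htop t)).symm
  have hp0 : ∀ t, 0 ≤ p t := fun t => ENNReal.toReal_nonneg
  have hp1 : ∀ t, p t ≤ 1 := fun t => by
    have := ENNReal.toReal_mono ENNReal.one_ne_top (surv_le_one adj v t u)
    simpa using this
  have hs : Summable p := ENNReal.summable_toReal hfin
  have hH : (hit adj u v).toReal = ∑' t, p t := ENNReal.tsum_toReal_eq htop
  rcases eq_or_ne (hit adj u v) 0 with h0 | h0
  · rw [h0]; exact zero_le
  have hHpos : 0 < (hit adj u v).toReal := ENNReal.toReal_pos h0 hfin
  have htail : ∀ t, ∑' s, p (t + s) ≤ (hit adj u v).toReal * p t := by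
    intro t
    have h1 := tail_le adj v (hit adj u v) (fun w => huv (w, v)) t u
    have h2 : (∑' s, surv adj v (t + s) u).toReal = ∑' s, p (t + s) :=
      ENNReal.tsum_toReal_eq (fun s => htop _)
    rw [← h2]
    have h3 := ENNReal.toReal_mono (ENNReal.mul_ne_top hfin (htop t)) h1
    rwa [ENNReal.toReal_mul] at h3
  have hmain := series_ineq p hp0 hp1 hs _ hH hHpos htail n
  have hps : Summable (fun t => p t ^ (n + 1)) := by
    refine Summable.of_nonneg_of_le (fun t => pow_nonneg (hp0 t) _) (fun t => ?_) hs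
    rw [pow_succ]
    calc p t ^ n * p t ≤ 1 * p t :=
          mul_le_mul_of_nonneg_right (pow_le_one₀ (hp0 t) (hp1 t)) (hp0 t)
      _ = p t := one_mul _
  have hjoint : jointHit adj (fun _ : Fin (n + 1) => u) v =
      ENNReal.ofReal (∑' t, p t ^ (n + 1)) := by
    unfold jointHit
    rw [ENNReal.ofReal_tsum_of_nonneg (fun t => pow_nonneg (hp0 t) _) hps]
    congr 1
    funext t
    rw [Finset.prod_const, Finset.card_univ, Fintype.card_fin, hpt t,
      ENNReal.ofReal_pow (hp0 t)]
  rw [hjoint, ← ENNReal.ofReal_toReal hfin]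
  have hc : ((n + 1 : ℕ) : ℝ≥0∞) = ENNReal.ofReal ((n : ℝ) + 1) := by
    rw [← Nat.cast_succ, ENNReal.ofReal_natCast]
  rw [hc, ← ENNReal.ofReal_mul (by positivity)]
  exact ENNReal.ofReal_le_ofReal hmain

end Pool.Agent.Results.MP_990fd9_pr.ParallelHitting
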